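import Pool.Agent.R871.SG.VgD

/-!
MP_b509a1_ag, Q1: a Kobayashi–Landau theorem for holomorphic discs of bounded index in general
hypersurfaces of degree at least `2 n + 2`.
-/

set_option autoImplicit false

namespace Pool.Agent.Results.MP_b509a1_ag.BoundedIndexDiscs

open MvPolynomial Metric
open Pool.Agent.R871.SG (IndexLE)

variable {n : ℕ}

/-- the vector of the coefficients of a form of degree `d` in `n + 2` variables -/
noncomputable def coefficients (d : ℕ) (F : MvPolynomial (Fin (n + 2)) ℂ) :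
    {m : Fin (n + 2) →₀ ℕ // m.degree = d} → ℂ :=
  fun m => coeff m.1 F

/-- `f` is a holomorphic map from the disc `|z| < r` to the hypersurface `F = 0`, given by
holomorphic homogeneous coordinates without common zeros with the power series `∑ a_m z^m`. -/
def Disc (F : MvPolynomial (Fin (n + 2)) ℂ) (r : ℝ) (f : ℂ → Fin (n + 2) → ℂ)
    (a : ℕ → Fin (n + 2) → ℂ) : Prop :=
  DifferentiableOn ℂ f (ball 0 r) ∧
    ∀ z : ℂ, ‖z‖ < r → HasSum (fun m : ℕ => z ^ m • a m) (f z) ∧ f z ≠ 0 ∧ eval (f z) F = 0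

/-- Let `n ≥ 1` and `d ≥ 2 n + 2`, the range of the conjecture of Kobayashi, and let `e` be a natural
number. There is a nonzero polynomial `P` in the coefficients of the forms of degree `d` in `n + 2`
variables such that for every form `F` of degree `d` at which `P` does not vanish there is a number
`C` such that all holomorphic maps `f` from a disc `|z| < r` to the hypersurface `F = 0` of index at
most `e` (the power series `∑ a_m z^m` of the homogeneous coordinates has a maximal term `‖a_j‖ r^j`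
with `j ≤ e`) satisfy `‖a_m‖ r^m ≤ C ‖a_0‖` for all `m`, and have at the centre of the disc a
derivative of at most `C / r`, for the Fubini–Study metric:
`r |a_{0,s} a_{1,t} - a_{0,t} a_{1,s}| ≤ C ‖a_0‖²`. -/
theorem result (n d e : ℕ) (hd : 2 * n + 2 ≤ d) :
    ∃ P : MvPolynomial {m : Fin (n + 2) →₀ ℕ // m.degree = d} ℂ, P ≠ 0 ∧
      ∀ F : MvPolynomial (Fin (n + 2)) ℂ, F.IsHomogeneous d → eval (coefficients d F) P ≠ 0 →
        ∃ C : ℝ, ∀ (r : ℝ) (f : ℂ → Fin (n + 2) → ℂ) (a : ℕ → Fin (n + 2) → ℂ), 0 < r →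
          Disc F r f a → IndexLE a e r → (∀ m, ‖a m‖ * r ^ m ≤ C * ‖a 0‖) ∧
            ∀ s t, r * ‖a 0 s * a 1 t - a 0 t * a 1 s‖ ≤ C * ‖a 0‖ ^ 2 := by
  obtain ⟨Pc, hPc, h⟩ := Pool.Agent.R871.SG.vg_lines (N := n + 1) (m := n + 1) (κ := Empty)
    Empty.elim (fun i => i.elim) (Pool.Agent.R871.SG.trdeg_empty (N := n + 1)) (fun _ : Fin 1 => d)
    Finset.univ (by simp; omega) e
  set g : Pool.Agent.TH182.VD.CI (n + 1) (fun _ : Fin 1 => d) →
    {m : Fin (n + 2) →₀ ℕ // m.degree = d} := fun x => x.2 with hg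
  have hginj : Function.Injective g := by
    rintro ⟨i, α⟩ ⟨j, β⟩ hαβ
    have hij : i = j := Subsingleton.elim _ _
    subst hij
    simp only [hg] at hαβ
    rw [hαβ]
  refine ⟨rename g Pc, fun h0 => hPc (rename_injective g hginj (h0.trans (map_zero _).symm)),
    fun F hF hFP => ?_⟩
  rw [eval_rename] at hFP
  have h1 := h (fun _ => F) (fun _ => hF) hFP
  have hX : IsClosed {x : Fin (n + 1 + 1) → ℂ | eval x F = 0} :=
    isClosed_eq (MvPolynomial.continuous_eval F) continuous_const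
  have hs : ∀ (a : ℂ), ∀ x ∈ {x : Fin (n + 1 + 1) → ℂ | eval x F = 0},
      a • x ∈ {x : Fin (n + 1 + 1) → ℂ | eval x F = 0} := by
    intro a x hx
    change eval (a • x) F = 0
    rw [Pool.Agent.R871.SG.eval_smul_form hF, show eval x F = 0 from hx, mul_zero]
  have hempty : {x | x ∈ {x : Fin (n + 1 + 1) → ℂ | eval x F = 0} ∧
      eval x (1 : MvPolynomial (Fin (n + 1 + 1)) ℂ) = 0} ∪
      Pool.Agent.R871.SG.lineSet {x | x ∈ {x : Fin (n + 1 + 1) → ℂ | eval x F = 0} ∧
      eval x (1 : MvPolynomial (Fin (n + 1 + 1)) ℂ) ≠ 0} e = ∅ := by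
    rw [Set.eq_empty_iff_forall_notMem]
    rintro x (hx | hx)
    · have := hx.2
      simp at this
    · obtain ⟨P, hPe, hP, hnc, -⟩ := hx
      refine h1 P hPe (fun z => ⟨(hP z).1, ?_, fun _ _ => (hP z).2.1, ?_⟩) hnc
      · exact fun i => i.elim
      · intro i hi
        exact absurd (Finset.mem_univ i) hi
  obtain ⟨C, hC⟩ := Pool.Agent.R871.SG.bound_off_lines hX hs (H := 1) ⟨0, isHomogeneous_one _ _⟩ e
    one_pos
  refine ⟨C, fun r f a hr hf ha => hC r f a hr ⟨hf.1, fun z hz => ?_⟩ ha ?_⟩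
  · obtain ⟨h2, h3, h4⟩ := hf.2 z hz
    exact ⟨h2, h3, h4, by simp⟩
  · rw [hempty]
    intro x hx
    exact absurd hx (Set.notMem_empty x)

end Pool.Agent.Results.MP_b509a1_ag.BoundedIndexDiscs
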