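import Pool.Agent.Y189.DC.Fin
import Pool.Agent.R845.VG

/-!
# Curves given by linear functional equations in very general hypersurfaces

Let `n ≥ 1` and `d ≥ 2 n + 2`, the range of the conjecture of Kobayashi. Let `X` be a very general
hypersurface of degree `d` and dimension `n` in the projective space of dimension `n + 1`. If the
homogeneous coordinates of an entire curve in `X` satisfy linear functional equations
`∑ a_k(z) h(σ^k(z)) = 0` with respect to a nonconstant entire function `σ` (of infinite order) which
is not a translation, with coefficients in a field of meromorphic functions of transcendence degree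
at most one which is closed under the composition with `σ`, then the curve is constant; if `σ` is the
translation by `b`, then the curve is constant or a multiple of `b` is a period of it. This includes
the curves given by `q`-difference equations (`σ(z) = q z`) and by Mahler type equations
(`σ(z) = z^q`).
-/

set_option autoImplicit false

namespace Pool.Agent.Results.MP_b509a1_ag.FunctionalEquationCurves

open Filter MvPolynomial
open scoped LinearAlgebra.Projectivization
open Pool.Agent.TH143.EL (HolMap InV Rep TorusMapsIn)
open Pool.Agent.Y189.DC (NCE Base FunEq)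

/-- The entire curve `f` is given by linear functional equations with respect to `σ`: Here `σ` is a
nonconstant entire function, no iterate `σ^k`, `k > 0`, of which is the identity (`NCE σ`: `σ` is
entire and not constant). The curve has homogeneous coordinates `h j` which are meromorphic
functions on the plane, each of them satisfying a nontrivial linear functional equation
`∑ a_k(z) h(σ^k(z)) = 0` (`FunEq σ U (h j)`), whose coefficients are polynomials in finitely many
meromorphic functions `u` in `U`. The field generated by `U` is closed under the composition with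
`σ` and has transcendence degree at most one over the constants (`Base σ U`). -/
def FunctionalCurve {N : ℕ} (σ : ℂ → ℂ) (f : ℂ → ℙ ℂ (Fin (N + 1) → ℂ)) : Prop :=
  NCE σ ∧ (∀ k, 0 < k → ∃ z, σ^[k] z ≠ z) ∧ ∃ U : Set (ℂ → ℂ), Base σ U ∧
    ∃ h : Fin (N + 1) → ℂ → ℂ, (∀ j, Meromorphic (h j)) ∧ (∀ j, FunEq σ U (h j)) ∧
      ∀ᶠ z in codiscrete ℂ, Rep (f z) fun j => h j z

/-- the vector of the coefficients of a form of degree `d` in `n + 2` variables -/
noncomputable def coefficients {n : ℕ} (d : ℕ) (F : MvPolynomial (Fin (n + 2)) ℂ) :
    {m : Fin (n + 2) →₀ ℕ // m.degree = d} → ℂ :=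
  fun m => coeff m.1 F

/-- Let `n ≥ 1` and `d ≥ 2 n + 2`. There is a countable set of nonzero polynomials in the
coefficients of the forms of degree `d` in `n + 2` variables such that the following holds for every
form `F` of degree `d` at which none of these polynomials vanishes: if a nonconstant entire curve
`f` in the hypersurface `F = 0` is given by linear functional equations with respect to `σ`, then
`σ` is a translation, and a multiple of it is a period of the curve; moreover all these translations
for one curve `f` are rational multiples of one complex number. -/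
theorem result (n d : ℕ) (hn : 1 ≤ n) (hd : 2 * n + 2 ≤ d) :
    ∃ Ps : Set (MvPolynomial {m : Fin (n + 2) →₀ ℕ // m.degree = d} ℂ),
      Ps.Countable ∧ 0 ∉ Ps ∧
      ∀ F : MvPolynomial (Fin (n + 2)) ℂ, F.IsHomogeneous d →
        (∀ P ∈ Ps, eval (coefficients d F) P ≠ 0) →
        ∀ f : ℂ → ℙ ℂ (Fin (n + 1 + 1) → ℂ), HolMap f → (∀ z, eval (f z).rep F = 0) →
          (∃ z w, f z ≠ f w) →
          ∃ b : ℂ, ∀ σ, FunctionalCurve σ f →
            ∃ r : ℚ, (∀ z, σ z = z + r * b) ∧ ∃ k : ℕ, 0 < k ∧ ∀ z, f (z + k * (r * b)) = f z := by
  obtain ⟨Ps, h1, h2, h3⟩ := Pool.Agent.R845.VG.very_general (n + 2) d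
  refine ⟨Ps, h1, h2, fun F hF hP f hf hX hnc => ?_⟩
  have hT := Pool.Agent.R845.VG.torusMapsIn hn hd hF (h3 F hP)
  have hI : ∀ z, InV (Ideal.span {F}) (f z) := by
    intro z G hG _
    rw [Ideal.mem_span_singleton] at hG
    obtain ⟨Q, rfl⟩ := hG
    have h4 := hX z
    rw [map_mul, h4, zero_mul]
  refine (Pool.Agent.Y189.DC.final (Ideal.span {F}) ⊤).1 hT f hf hI ⟨0, fun h5 => ?_⟩ hnc
  have h6 := h5 1 Submodule.mem_top ⟨0, isHomogeneous_one _ _⟩
  rw [map_one] at h6
  exact one_ne_zero h6

end Pool.Agent.Results.MP_b509a1_ag.FunctionalEquationCurves
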