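import Pool.Agent.Y377.IL.AllC
import Pool.Agent.R845.VG

/-!
# Curves given by iterated linear differential equations in very general hypersurfaces

Let `n ≥ 1` and `d ≥ 2 n + 2`, the range of the conjecture of Kobayashi. For a very general
hypersurface `X` of degree `d` and dimension `n` in the projective space of dimension `n + 1` every
entire curve in `X` is constant if it has homogeneous coordinates in an iterated Picard-Vessiot tower
over a differential ring `B` of meromorphic functions of transcendence degree at most one, for
instance over the rational functions, over the rational functions of `exp (a z)` or over the elliptic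
functions with given periods. The coordinates are meromorphic functions on the plane obtained from
the functions in `B` by additions, multiplications, divisions and solutions of linear systems
`y' = A y` of differential equations, where the coefficients can be any functions which have been
obtained before.
-/

set_option autoImplicit false

namespace Pool.Agent.Results.MP_b509a1_ag.IteratedLinearCurves

open Filter MvPolynomial
open scoped LinearAlgebra.Projectivization
open Pool.Agent.TH143.EL
open Pool.Agent.Y377.IL (IterLin IteratedOver iter_main)

/-- Entire curves given by iterated linear differential equations over a ring `B` of meromorphic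
functions which is closed under differentiation and of transcendence degree at most one. -/
def IteratedCurve {N : ℕ} (f : ℂ → ℙ ℂ (Fin (N + 1) → ℂ)) : Prop :=
  ∃ B : Subalgebra ℂ (ℂ → ℂ), TrOne B ∧ IteratedOver B f

/-- the vector of the coefficients of a form of degree `d` in `n + 2` variables -/
noncomputable def coefficients {n : ℕ} (d : ℕ) (F : MvPolynomial (Fin (n + 2)) ℂ) :
    {m : Fin (n + 2) →₀ ℕ // m.degree = d} → ℂ :=
  fun m => coeff m.1 F

/-- Let `n ≥ 1` and `d ≥ 2 n + 2`. There is a countable set of nonzero polynomials in the
coefficients of the forms of degree `d` in `n + 2` variables such that for every form `F` of degree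
`d` at which none of these polynomials vanishes every entire curve in the hypersurface `F = 0` which
is given by iterated linear differential equations is constant. -/
theorem result (n d : ℕ) (hn : 1 ≤ n) (hd : 2 * n + 2 ≤ d) :
    ∃ Ps : Set (MvPolynomial {m : Fin (n + 2) →₀ ℕ // m.degree = d} ℂ),
      Ps.Countable ∧ 0 ∉ Ps ∧
      ∀ F : MvPolynomial (Fin (n + 2)) ℂ, F.IsHomogeneous d →
        (∀ P ∈ Ps, eval (coefficients d F) P ≠ 0) →
        ∀ f : ℂ → ℙ ℂ (Fin (n + 1 + 1) → ℂ), HolMap f → IteratedCurve f →
          (∀ z, eval (f z).rep F = 0) → ∀ z w, f z = f w := by
  obtain ⟨Ps, h1, h2, h3⟩ := Pool.Agent.R845.VG.very_general (n + 2) d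
  refine ⟨Ps, h1, h2, fun F hF hP f hf hB hX z w => ?_⟩
  obtain ⟨B, hB1, h, hl, hr⟩ := hB
  have hT := Pool.Agent.R845.VG.torusMapsIn hn hd hF (h3 F hP)
  by_contra hzw
  have hI : ∀ z, InV (Ideal.span {F}) (f z) := by
    intro z G hG _
    rw [Ideal.mem_span_singleton] at hG
    obtain ⟨Q, rfl⟩ := hG
    have h4 := hX z
    rw [map_mul, h4, zero_mul]
  have h5 := iter_main hT hB1 hf hl hr hI ⟨z, w, hzw⟩ z 1 Submodule.mem_top
    ⟨0, isHomogeneous_one _ _⟩
  rw [map_one] at h5
  exact one_ne_zero h5

end Pool.Agent.Results.MP_b509a1_ag.IteratedLinearCurves
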