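import Pool.Agent.TH600.LK.Ell
import Pool.Agent.R845.VG

/-!
# Curves built by exponentials, integrations and gap series in very general hypersurfaces

Let `n ≥ 1` and `d ≥ 2 n + 2`, the range of the conjecture of Kobayashi. For a very general
hypersurface `X` of degree `d` and dimension `n` in the projective space of dimension `n + 1` every
entire curve in `X` is constant if it has homogeneous coordinates in the ring generated by the tower
functions over a differential ring `B` of meromorphic functions of transcendence degree at most one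
(the meromorphic functions on the plane obtained from the functions in `B` by additions,
multiplications, exponentials of entire functions and integrations, in any order) and by all
functions `g (ψ z)` with an entire function `g` with Hadamard gaps and a nonconstant entire tower
function `ψ` over `B`.
-/

set_option autoImplicit false

namespace Pool.Agent.Results.MP_b509a1_ag.TowerCurves

open Filter MvPolynomial
open scoped LinearAlgebra.Projectivization
open Pool.Agent.TH143.EL
open Pool.Agent.TH600.LK (TowFun TowRing tow_main)

/-- Entire curves with homogeneous coordinates in the ring generated by the tower functions over a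
differential ring `B` of meromorphic functions of transcendence degree at most one, and by the gap
series in a nonconstant entire tower function `ψ` over `B`. -/
def TowerCurve {N : ℕ} (f : ℂ → ℙ ℂ (Fin (N + 1) → ℂ)) : Prop :=
  ∃ (B : Subalgebra ℂ (ℂ → ℂ)) (ψ : ℂ → ℂ), TrOne B ∧ TowFun B ψ ∧ Differentiable ℂ ψ ∧
    (∃ z w, ψ z ≠ ψ w) ∧ ∃ h : ℂ → Fin (N + 1) → ℂ, (∀ j, (fun z => h z j) ∈ TowRing B ψ) ∧
      ∀ᶠ z in codiscrete ℂ, Rep (f z) (h z)

/-- the vector of the coefficients of a form of degree `d` in `n + 2` variables -/
noncomputable def coefficients {n : ℕ} (d : ℕ) (F : MvPolynomial (Fin (n + 2)) ℂ) :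
    {m : Fin (n + 2) →₀ ℕ // m.degree = d} → ℂ :=
  fun m => coeff m.1 F

/-- Let `n ≥ 1` and `d ≥ 2 n + 2`. There is a countable set of nonzero polynomials in the
coefficients of the forms of degree `d` in `n + 2` variables such that for every form `F` of degree
`d` at which none of these polynomials vanishes every tower curve in the hypersurface `F = 0` is
constant. -/
theorem result (n d : ℕ) (hn : 1 ≤ n) (hd : 2 * n + 2 ≤ d) :
    ∃ Ps : Set (MvPolynomial {m : Fin (n + 2) →₀ ℕ // m.degree = d} ℂ),
      Ps.Countable ∧ 0 ∉ Ps ∧
      ∀ F : MvPolynomial (Fin (n + 2)) ℂ, F.IsHomogeneous d →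
        (∀ P ∈ Ps, eval (coefficients d F) P ≠ 0) →
        ∀ f : ℂ → ℙ ℂ (Fin (n + 1 + 1) → ℂ), HolMap f → TowerCurve f →
          (∀ z, eval (f z).rep F = 0) → ∀ z w, f z = f w := by
  obtain ⟨Ps, h1, h2, h3⟩ := Pool.Agent.R845.VG.very_general (n + 2) d
  refine ⟨Ps, h1, h2, fun F hF hP f hf hB hX z w => ?_⟩
  obtain ⟨B, ψ, hB1, hψ, hd', hn', h, hl, hr⟩ := hB
  have hT := Pool.Agent.R845.VG.torusMapsIn hn hd hF (h3 F hP)
  by_contra hzw
  have hI : ∀ z, InV (Ideal.span {F}) (f z) := by
    intro z G hG _
    rw [Ideal.mem_span_singleton] at hG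
    obtain ⟨Q, rfl⟩ := hG
    have h4 := hX z
    rw [map_mul, h4, zero_mul]
  have h5 := tow_main hT hB1 hψ hd' hn' hf hl hr hI ⟨z, w, hzw⟩ z 1 Submodule.mem_top
    ⟨0, isHomogeneous_one _ _⟩
  rw [map_one] at h5
  exact one_ne_zero h5

end Pool.Agent.Results.MP_b509a1_ag.TowerCurves
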